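import Pool.Agent.MP_4f0bc7_gt.Main
import Pool.Agent.MP_4f0bc7_gt.ExCh

namespace Pool.Agent.MP_4f0bc7_gt

open Matrix Polynomial

/-- the multiplicity form of the criterion -/
theorem mult_none (n : ℕ) (ρ : ℝ) (q : ℕ → ℂ[X]) (f : ℂ[X]) (R : ℂ[X][X]) (m : ℕ) (hρ : 0 ≤ ρ)
    (hq : ∀ j, 2 ≤ j → j ≤ n → ((q j).natDegree : ℝ) ≤ j * ρ) (hm : 2 ≤ m)
    (hP : (hitchin n q).charpoly = (X - C f) ^ m * R) (hR : R.eval f ≠ 0)
    (hdeg : ((m : ℝ) - 1) * (ρ * ((n : ℝ) - m) - 1) ≤ ((m : ℝ) - 2) * (R.eval f).natDegree) :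
    ¬ ∃ H, IsHarmonicMetric Set.univ (fun z => hitchin n fun j => (q j).eval z) H := by
  obtain ⟨e, rfl⟩ : ∃ e, m = e + 2 := ⟨m - 2, by omega⟩
  have hX : (X - C f : ℂ[X][X]).Monic := monic_X_sub_C f
  have hRm : R.Monic := by
    have := (hitchin n q).charpoly_monic
    rw [hP] at this
    exact (hX.pow _).of_mul_monic_left this
  have hn : n = e + 2 + R.natDegree := by
    have := (hitchin n q).charpoly_natDegree_eq_dim
    rw [hP, (hX.pow _).natDegree_mul hRm, hX.natDegree_pow, natDegree_X_sub_C,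
      Fintype.card_fin] at this
    omega
  refine crit' n ρ q ((X - C f) * R) ((X - C f) ^ (e + 1) * R) (R.eval f ^ e) (e + 1) (e + 2) hρ hq
    (hX.mul hRm) ?_ ?_ ((hX.pow _).mul hRm) ?_ (pow_ne_zero _ hR) (by omega) ?_ ?_
  · rw [hP]
    exact mul_dvd_mul_right (dvd_pow_self _ (by omega)) _
  · rw [hP, mul_pow]
    exact mul_dvd_mul_left _ (dvd_pow_self _ (by omega))
  · rw [(hX.pow _).natDegree_mul hRm, hX.natDegree_pow, natDegree_X_sub_C]
    omega
  · have h1 : (X - C f) ∣ R ^ e - C (R.eval f) ^ e :=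
      (X_sub_C_dvd_sub_C_eval).trans (sub_dvd_pow_sub_pow _ _ _)
    obtain ⟨T, hT⟩ := h1
    refine ⟨T, ?_⟩
    rw [hP, C_pow]
    calc ((X - C f) * R) ^ (e + 1) - C (R.eval f) ^ e * ((X - C f) ^ (e + 1) * R)
        = (X - C f) ^ (e + 1) * R * (R ^ e - C (R.eval f) ^ e) := by rw [mul_pow]; ring
      _ = _ := by rw [hT]; ring
  · rw [hX.natDegree_mul hRm, natDegree_X_sub_C, natDegree_pow]
    have : (n : ℝ) = e + 2 + R.natDegree := by exact_mod_cast hn
    rw [this] at hdeg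
    push_cast at hdeg ⊢
    nlinarith

lemma charpoly_zero_eval (n : ℕ) (c : ℕ → ℂ) (h : ∀ j, 2 ≤ j → j ≤ n → c j = 0) (l : ℂ)
    (hl : (hitchin n c).charpoly.IsRoot l) : l = 0 := by
  have key : ∀ K : ℝ, 0 < K → ‖l‖ ≤ n * K := fun K hK =>
    rootS n c K hK (fun j h1 h2 => by rw [h j h1 h2, norm_zero]; positivity) l hl
  rw [← norm_le_zero_iff]
  apply le_of_forall_pos_le_add
  intro ε hε
  have := key (ε / (n + 1)) (by positivity)
  have h2 : (n : ℝ) * (ε / (n + 1)) ≤ ε := by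
    rw [mul_div_assoc', div_le_iff₀ (by positivity)]; nlinarith
  linarith

/-- non-existence in every rank at least three, on the line and on the punctured line -/
theorem all_ranks (n : ℕ) (hn : 3 ≤ n) : ∃ c : ℕ → ℂ, (∃ j, 2 ≤ j ∧ j ≤ n ∧ c j ≠ 0) ∧
    (∀ f : ℂ[X], f ≠ 0 → f.natDegree ≤ n - 2 →
      ¬ ∃ H, IsHarmonicMetric Set.univ (fun z => hitchin n fun j => c j * f.eval z ^ j) H) ∧
    ¬ ∃ H, IsHarmonicMetric {0}ᶜ (fun z => hitchin n fun j => c j / z ^ j) H := by
  obtain ⟨e, rfl⟩ : ∃ e, n = e + 3 := ⟨n - 3, by omega⟩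
  set s : ℂ := (e : ℂ) + 2 with hs
  have hX : (X - C 1 : ℂ[X]).Monic := monic_X_sub_C 1
  have hY : (X - C (-s) : ℂ[X]).Monic := monic_X_sub_C _
  have hdeg : ((X - C 1 : ℂ[X]) ^ (e + 2) * (X - C (-s))).natDegree = e + 3 := by
    rw [(hX.pow _).natDegree_mul hY, hX.natDegree_pow, natDegree_X_sub_C, natDegree_X_sub_C]
    omega
  obtain ⟨c, hc⟩ := exCh (e + 3) ((X - C 1) ^ (e + 2) * (X - C (-s))) (by omega)
    ((hX.pow _).mul hY) hdeg (by
      have h1 := Monic.nextCoeff_mul (hX.pow (e + 2)) hY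
      rw [hX.nextCoeff_pow, nextCoeff_X_sub_C, nextCoeff_X_sub_C,
        nextCoeff_of_natDegree_pos (by omega), hdeg] at h1
      rw [h1, hs]
      simp)
  refine ⟨c, ?_, ?_, ?_⟩
  · by_contra hcon
    push Not at hcon
    have := charpoly_zero_eval (e + 3) c hcon 1 (by rw [hc]; simp)
    exact one_ne_zero this
  · intro f hf hfd
    have h1 := scale2 (e + 3) c (List.replicate (e + 2) 1 ++ [-s]) f hf (by rw [hc]; simp)
    have h2 : (hitchin (e + 3) fun j => C (c j) * f ^ j).charpoly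
        = (X - C f) ^ (e + 2) * (X - C (C (-s) * f)) := by
      rw [h1, List.map_append, List.prod_append, List.map_replicate, List.prod_replicate,
        List.map_singleton, List.prod_singleton, C_1, one_mul]
    have h3 : (X - C (C (-s) * f) : ℂ[X][X]).eval f = C (1 + s) * f := by
      simp only [eval_sub, eval_X, eval_C, map_add, map_one, map_neg]; ring
    have h4 : (1 + s) ≠ 0 := by
      rw [hs]
      have : (1 + ((e : ℂ) + 2)) = ((e + 3 : ℕ) : ℂ) := by push_cast; ring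
      rw [this]; exact Nat.cast_ne_zero.2 (by omega)
    have := mult_none (e + 3) f.natDegree (fun j => C (c j) * f ^ j) f _ (e + 2)
      (Nat.cast_nonneg _)
      (fun j _ _ => by
        have : (C (c j) * f ^ j).natDegree ≤ j * f.natDegree :=
          (natDegree_C_mul_le _ _).trans natDegree_pow_le
        exact_mod_cast this) (by omega) h2
      (by rw [h3]; exact mul_ne_zero (C_ne_zero.2 h4) hf)
      (by
        rw [h3, natDegree_C_mul h4]
        have : (f.natDegree : ℝ) ≤ e + 1 := by exact_mod_cast (by omega : f.natDegree ≤ e + 1)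
        push_cast
        nlinarith)
    simpa using this
  · refine logpole_none (e + 3) c fun hsep => ?_
    rw [hc] at hsep
    have := (Separable.of_pow (not_isUnit_X_sub_C (1 : ℂ)) (by omega) hsep.of_mul_left).2
    omega

end Pool.Agent.MP_4f0bc7_gt
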