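import Mathlib

/-!
Harmonic metrics on Higgs bundles of the Hitchin section over open subsets of
the complex line, written in the holomorphic frame given by the powers of the square root of `dz`.
-/

namespace Pool.Agent.MP_4f0bc7_gt

open Matrix

/-- The Wirtinger derivative `∂_z = (∂_x - i ∂_y) / 2`. -/
noncomputable def dz (F : ℂ → ℂ) (z : ℂ) : ℂ :=
  (fderiv ℝ F z 1 - Complex.I * fderiv ℝ F z Complex.I) / 2

/-- The Wirtinger derivative `∂_{bar z} = (∂_x + i ∂_y) / 2`. -/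
noncomputable def dzb (F : ℂ → ℂ) (z : ℂ) : ℂ :=
  (fderiv ℝ F z 1 + Complex.I * fderiv ℝ F z Complex.I) / 2

/-- Entrywise `∂_z` of a matrix-valued function. -/
noncomputable def mdz {n : ℕ} (F : ℂ → Matrix (Fin n) (Fin n) ℂ) (z : ℂ) :
    Matrix (Fin n) (Fin n) ℂ :=
  Matrix.of fun a b => dz (fun w => F w a b) z

/-- Entrywise `∂_{bar z}` of a matrix-valued function. -/
noncomputable def mdzb {n : ℕ} (F : ℂ → Matrix (Fin n) (Fin n) ℂ) (z : ℂ) :
    Matrix (Fin n) (Fin n) ℂ :=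
  Matrix.of fun a b => dzb (fun w => F w a b) z

/-- The matrix of the Higgs field of the Hitchin section: `1` on the subdiagonal, `q j` on the
superdiagonal number `j - 1`, `0` elsewhere (only `q 2, …, q n` occur). -/
def hitchin {R : Type} [CommRing R] (n : ℕ) (q : ℕ → R) : Matrix (Fin n) (Fin n) R :=
  Matrix.of fun a b =>
    if a.val = b.val + 1 then 1 else if a.val < b.val then q (b.val - a.val + 1) else 0

/-- `H` is Hermitian and positive definite; the metric is `h(u, v) = v^* H u`. -/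
def IsPosHerm {n : ℕ} (H : Matrix (Fin n) (Fin n) ℂ) : Prop :=
  Hᴴ = H ∧ ∀ v : Fin n → ℂ, v ≠ 0 → 0 < (star v ⬝ᵥ (H *ᵥ v)).re

/-- The adjoint `H⁻¹ X^* H` of `X` for the metric `h(u, v) = v^* H u`. -/
noncomputable def adj {n : ℕ} (H X : Matrix (Fin n) (Fin n) ℂ) : Matrix (Fin n) (Fin n) ℂ :=
  H⁻¹ * Xᴴ * H

/-- `H` is a harmonic metric of class `C^2` on `U` for the Higgs field `θ = A dz` on the trivial
holomorphic bundle: the curvature `bar ∂ (H⁻¹ ∂ H)` of the Chern connection plus `[θ, θ^*]`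
vanishes, that is `∂_{bar z} (H⁻¹ ∂_z H) = A A^* - A^* A` with `A^* = adj H A`. -/
def IsHarmonicMetric {n : ℕ} (U : Set ℂ) (A H : ℂ → Matrix (Fin n) (Fin n) ℂ) : Prop :=
  (∀ a b, ContDiffOn ℝ 2 (fun z => H z a b) U) ∧ (∀ z ∈ U, IsPosHerm (H z)) ∧
    ∀ z ∈ U, mdzb (fun w => (H w)⁻¹ * mdz H w) z
      = A z * adj (H z) (A z) - adj (H z) (A z) * A z

end Pool.Agent.MP_4f0bc7_gt
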